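import Pool.Agent.Work.MP_b0b133_an.D6.End
import Pool.Agent.Work.MP_b0b133_an.G.FIm

/-!
# The sharp cone extension inequality in dimension `6` from the pointwise inequality
-/

set_option autoImplicit false
open MeasureTheory Complex

namespace Pool.Agent.ConeG

theorem kap6_eq : kap6 = kapG 6 (387 / 100) (112 / 125) (157 / 100) (31 / 50) := rfl

/-- The functional inequality in dimension six from the pointwise inequality: shift `ν`,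
`w0 = 387/100`, `r0 = 112/125`, `w1 = 157/100`, `r1 = 31/50`. -/
theorem funcGF_six [Fact (2 ≤ 6)] (P : FI.Prm) (hq : P.q = 4 / 5) (hc : P.c = 51 / 100)
    (ha : P.a = 47 / 100) (hαβ : P.α + P.β = 1) (hβ : 0 ≤ P.β) (hξ : 0 ≤ P.ξ) {C : ℝ} (hC : 0 ≤ C)
    (h : ∀ (δ : ℝ) (hδ : 0 < δ), δ ≤ 1 → ∀ y : ℝ, 0 ≤ y → ∀ ψ ∈ HP 6,
      ∃ Z : CC 6 → ℝ, FI.Zr (muX 6) Z ∧ ∀ᵐ x ∂(muX 6),
        0 ≤ (FI.PhiD 6 P hδ).f2 (FI.jet (FI.Pj ψ) y x)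
          (fun i => -(FI.evz y x (AP (FI.Pj ψ i)))) (fun i => FI.evz y x (AP (AP (FI.Pj ψ i)))) +
        2 * (1 * nu 6) * (FI.PhiD 6 P hδ).f1 (FI.jet (FI.Pj ψ) y x)
          (fun i => -(FI.evz y x (AP (FI.Pj ψ i)))) +
        (1 * nu 6) ^ 2 * (FI.PhiD 6 P hδ).f0 (FI.jet (FI.Pj ψ) y x) +
        ((FI.XiD 6 P hδ).f1 (FI.jet (FI.Pj ψ) y x) (fun i => -(FI.evz y x (AP (FI.Pj ψ i)))) +
          (1 * nu 6) * (FI.XiD 6 P hδ).f0 (FI.jet (FI.Pj ψ) y x)) +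
        Z x + nu 6 ^ 2 * (FI.cstD (pe 6 - 2) (387 / 100) (112 / 125) (157 / 100) (31 / 50) δ ψ y x +
          C * δ ^ (pe 6 - 2) * FI.errD ψ y x)) :
    FuncGF (muX 6) 0 0 (51 / 100) (47 / 100) (Cst6 (muX 6)) := by
  have hp : pe 6 - 2 = 4 / 5 := pe_six
  have hμ : Law (muX 6) := law_muX
  have key := FI.funcGF_of_pointwise (A := 13 / 25) (B := 63 / 125) (α := 1) (β := 2 / 3) (s := 1)
    hμ (by rw [hp]; norm_num) P (by rw [hq, hp]) hαβ hβ hξ (by norm_num) (by norm_num)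
    (by norm_num) (by norm_num) (by norm_num) (fun U y => tangent_six U y) hC h
  rw [hc, ha] at key
  exact key

/-- `Sharp 6` from the pointwise inequality -/
theorem sharp_six_of_pointwise [Fact (2 ≤ 6)] (P : FI.Prm) (hq : P.q = 4 / 5)
    (hc : P.c = 51 / 100)
    (ha : P.a = 47 / 100) (hαβ : P.α + P.β = 1) (hβ : 0 ≤ P.β) (hξ : 0 ≤ P.ξ) {C : ℝ} (hC : 0 ≤ C)
    (h : ∀ (δ : ℝ) (hδ : 0 < δ), δ ≤ 1 → ∀ y : ℝ, 0 ≤ y → ∀ ψ ∈ HP 6,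
      ∃ Z : CC 6 → ℝ, FI.Zr (muX 6) Z ∧ ∀ᵐ x ∂(muX 6),
        0 ≤ (FI.PhiD 6 P hδ).f2 (FI.jet (FI.Pj ψ) y x)
          (fun i => -(FI.evz y x (AP (FI.Pj ψ i)))) (fun i => FI.evz y x (AP (AP (FI.Pj ψ i)))) +
        2 * (1 * nu 6) * (FI.PhiD 6 P hδ).f1 (FI.jet (FI.Pj ψ) y x)
          (fun i => -(FI.evz y x (AP (FI.Pj ψ i)))) +
        (1 * nu 6) ^ 2 * (FI.PhiD 6 P hδ).f0 (FI.jet (FI.Pj ψ) y x) +
        ((FI.XiD 6 P hδ).f1 (FI.jet (FI.Pj ψ) y x) (fun i => -(FI.evz y x (AP (FI.Pj ψ i)))) +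
          (1 * nu 6) * (FI.XiD 6 P hδ).f0 (FI.jet (FI.Pj ψ) y x)) +
        Z x + nu 6 ^ 2 * (FI.cstD (pe 6 - 2) (387 / 100) (112 / 125) (157 / 100) (31 / 50) δ ψ y x +
          C * δ ^ (pe 6 - 2) * FI.errD ψ y x)) :
    Sharp 6 :=
  sharp_six (funcGF_six P hq hc ha hαβ hβ hξ hC h)

end Pool.Agent.ConeG
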