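import Pool.Agent.Work.MP_b0b133_an.G.FIr
import Pool.Agent.Work.MP_b0b133_an.G.Pt6
import Pool.Agent.Work.MP_b0b133_an.D6.Fin

/-!
# The sharp cone extension inequality in dimension six
-/

set_option autoImplicit false
open MeasureTheory Complex Filter Topology
open scoped ENNReal ComplexConjugate

namespace Pool.Agent.ConeG

namespace FI

variable {d : ℕ}

theorem norm_sub_sq_dot (a b : ℂ) (r : ℝ) :
    ‖a - (r : ℂ) * b‖ ^ 2 = dot a a - 2 * r * dot a b + r ^ 2 * dot b b := by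
  rw [← dot_self]
  unfold dot
  simp only [sub_re, sub_im, mul_re, mul_im, ofReal_re, ofReal_im]
  ring

theorem norm_div_sub_sq_dot (a b : ℂ) (n r : ℝ) (hn : n ≠ 0) :
    n ^ 2 * ‖a / (n : ℂ) - (r : ℂ) * b‖ ^ 2 =
      dot a a - 2 * n * r * dot a b + n ^ 2 * r ^ 2 * dot b b := by
  have h1 : a / (n : ℂ) = ((n⁻¹ : ℝ) : ℂ) * a := by
    push_cast
    rw [div_eq_inv_mul]
  rw [h1, ← dot_self]
  unfold dot
  simp only [sub_re, sub_im, mul_re, mul_im, ofReal_re, ofReal_im]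
  field_simp
  ring

/-- costs which are squares -/
theorem cstP_eq (hν : nu d ≠ 0) (P : Prm) {w0 r0 w1 r1 : ℝ} (h11 : P.C11 = w0)
    (h1h : P.C1h = -(w0 * r0)) (hhh : P.Chh = w0 * r0 ^ 2) (hee : P.Cee = 0) (he1 : P.Ce1 = 0)
    (heh : P.Ceh = 0) (hbb : P.Cbb = w1) (hbv : P.Cbv = -(w1 * r1)) (hvv : P.Cvv = w1 * r1 ^ 2)
    (δ : ℝ) (ψ : Poly d) (y : ℝ) (x : CC d) :
    cstP P δ ψ y x = nu d ^ 2 * cstD P.q w0 r0 w1 r1 δ ψ y x := by
  unfold cstP cstD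
  have e1 : ∀ p : Fin (d + 1) × Fin (d + 1),
      P.Cbb * dot (evz (y : ℂ) x (LP p.1 p.2 (AP ψ))) (evz (y : ℂ) x (LP p.1 p.2 (AP ψ))) +
      2 * nu d * P.Cbv * dot (evz (y : ℂ) x (LP p.1 p.2 (AP ψ))) (evz (y : ℂ) x (LP p.1 p.2 ψ)) +
      nu d ^ 2 * P.Cvv * dot (evz (y : ℂ) x (LP p.1 p.2 ψ)) (evz (y : ℂ) x (LP p.1 p.2 ψ)) =
      nu d ^ 2 * w1 * ‖evz (y : ℂ) x (LP p.1 p.2 (AP ψ)) / (nu d : ℂ) -
        (r1 : ℂ) * evz (y : ℂ) x (LP p.1 p.2 ψ)‖ ^ 2 := fun p => by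
    have h2 := norm_div_sub_sq_dot (evz (y : ℂ) x (LP p.1 p.2 (AP ψ)))
      (evz (y : ℂ) x (LP p.1 p.2 ψ)) (nu d) r1 hν
    rw [hbb, hbv, hvv]
    linear_combination (-w1) * h2
  simp only [e1]
  rw [← Finset.mul_sum, norm_sub_sq_dot, h11, h1h, hhh, hee, he1, heh]
  ring

end FI

/-- the parameters of the certificate -/
noncomputable def prm6 : FI.Prm where
  q := 4 / 5
  σ := 1
  c := 51 / 100
  a := 47 / 100
  α := 347 / 400
  β := 53 / 400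
  ξ := 43 / 100
  c6 := 96 / 25
  m1 := -(181 / 40)
  m2 := -(2 / 25)
  n4 := 73 / 25
  n5 := 14 / 25
  C11 := 387 / 100
  C1h := -(387 / 100 * (112 / 125))
  Chh := 387 / 100 * (112 / 125) ^ 2
  Ce1 := 0
  Ceh := 0
  Cee := 0
  Cbb := 157 / 100
  Cbv := -(157 / 100 * (31 / 50))
  Cvv := 157 / 100 * (31 / 50) ^ 2

theorem prm6_q0 (er ei hr hi : ℝ) : 0 ≤ prm6.q0 1 er ei hr hi := by
  have h := Pt6.q0_nonneg hr hi er ei
  unfold FI.Prm.q0 prm6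
  linarith

theorem prm6_q1 (er ei vr vi br bi : ℝ) : 0 ≤ prm6.q1 1 er ei vr vi br bi := by
  have h := Pt6.q1_nonneg er ei br bi vr vi
  unfold FI.Prm.q1 prm6
  linarith

/-- the sharp inequality in dimension six -/
theorem sharp_6 [Fact (2 ≤ 6)] : Sharp 6 := by
  have hν := nu_pos 6
  obtain ⟨C, hC0, hC⟩ := FI.pointwise (d := 6) hν prm6 (by unfold prm6; norm_num)
    (by unfold prm6; norm_num) (by unfold prm6; norm_num [abs_of_pos]) prm6_q0 prm6_q1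
  refine sharp_six_of_pointwise prm6 rfl rfl rfl (by unfold prm6; norm_num)
    (by unfold prm6; norm_num) (by unfold prm6; norm_num) hC0 fun δ hδ _ y _ ψ hψ => ?_
  refine ⟨FI.Zt prm6 hδ ψ y, FI.Zt_zr law_muX prm6 hδ ψ y, Filter.Eventually.of_forall fun x => ?_⟩
  have h := hC δ hδ ψ hψ y x
  have e1 := FI.cstP_eq hν.ne' prm6 (w0 := 387 / 100) (r0 := 112 / 125) (w1 := 157 / 100)
    (r1 := 31 / 50) rfl rfl rfl rfl rfl rfl rfl rfl rfl δ ψ y x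
  have hq : prm6.q = pe 6 - 2 := by rw [pe_six]; rfl
  have hσ : prm6.σ = 1 := rfl
  rw [e1, hq, hσ] at h
  refine h.trans_eq ?_
  ring

end Pool.Agent.ConeG
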