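import Pool.Agent.Work.MP_b0b133_an.D6.Law
import Pool.Agent.Work.MP_b0b133_an.G.FIi6

/-!
# The sharp cone extension inequality in dimension `6`: the end game

`sharp_six`: the functional inequality with the cost functional `Cst6` implies `Sharp 6`.
-/

set_option autoImplicit false
open MeasureTheory Complex

namespace Pool.Agent.ConeG

theorem D6_nl_eq (l : ℕ) : D6.nl l = nl 6 l := by
  rw [nl_six]
  rfl

theorem D6_xl_eq (l : ℕ) : D6.xl l = xl 6 l := by
  rw [FI.xl_eq_inv, D6.xl, D6_nl_eq, one_div]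

theorem D6_kl_eq (l : ℕ) : D6.kl l = kap6 l := by
  unfold D6.kl kap6
  rw [D6_xl_eq, D6_nl_eq]
  ring

/-- the law inequality for polynomials -/
theorem lawIneq_six [Fact (2 ≤ 6)] : LawIneq (muX 6) ((2 * (201 / 250) + (pe 6 - 2)) / 4)
    (759 / 1000) 0 0 (51 / 100) (47 / 100) (1 / 1000 * (1 - (759 / 1000) ^ 2)) 1
    (Cst6 (muX 6)) := by
  intro F hF hE hr η hη hst
  have hν := nu_pos 6
  have hμ : Law (muX 6) := law_muX
  set n := F.totalDegree with hn
  set e : ℕ → ℝ := el (muX 6) F with he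
  have he0 : e 0 = ‖ev F 0‖ ^ 2 := FINH.el_zero hν hμ F
  have hr0 : 0 ≤ ‖ev F 0‖ := norm_nonneg _
  have hrho : e 0 ≤ (759 / 1000) ^ 2 := by
    rw [he0]
    exact pow_le_pow_left₀ hr0 hr 2
  have hX : Lev (muX 6) (xl 6) F = e 0 + ∑ l ∈ Finset.range n, e (l + 1) * xl 6 (l + 1) := by
    rw [FINH.Lev_el _ F (n + 1) (by omega), Finset.sum_range_succ', FING.xl_zero hν, mul_one,
      add_comm]
  have hA : (2 * (201 / 250) + (pe 6 - 2)) / 4 = (301 / 500 : ℝ) := by
    rw [pe_six]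
    norm_num
  have hq : ‖ev F 0‖ ^ (2 - (pe 6 - 2)) = e 0 ^ ((3 : ℝ) / 5) := by
    rw [he0, pe_six, ← Real.rpow_natCast, ← Real.rpow_mul hr0]
    norm_num
  rw [hq, hA, hX, ← he0] at hst
  have key := D6.law6 n e (fun l => FINH.el_nonneg hν F l)
    (by rw [FINH.sum_el hμ F (n + 1) (by omega), hE]) (hrho.trans (by norm_num)) η hη (by
      simp only [D6_xl_eq]
      linarith)
  have hMar : D6.Mar (n + 1) e = 51 / 100 + 47 / 100 * Lev (muX 6) (xl 6) F - 1 / 5 -
      4 / 5 * Lev (muX 6) (fun l => xl 6 l ^ 2) F - Cst6 (muX 6) F := by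
    unfold D6.Mar
    rw [Cst6_eq (muX 6) F (n + 1) rfl, FINH.Lev_el (xl 6) F (n + 1) (by omega),
      FINH.Lev_el (fun l => xl 6 l ^ 2) F (n + 1) (by omega)]
    have h1 : ∑ l ∈ Finset.range (n + 1), e l = 1 := by
      rw [FINH.sum_el hμ F (n + 1) (by omega), hE]
    have h2 : ∑ l ∈ Finset.range (n + 1),
        e l * (51 / 100 + 47 / 100 * D6.xl l - 1 / 5 - 4 / 5 * D6.xl l ^ 2) =
        (51 / 100 - 1 / 5) * ∑ l ∈ Finset.range (n + 1), e l +
          47 / 100 * ∑ l ∈ Finset.range (n + 1), e l * xl 6 l -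
          4 / 5 * ∑ l ∈ Finset.range (n + 1), e l * xl 6 l ^ 2 := by
      rw [Finset.mul_sum, Finset.mul_sum, Finset.mul_sum, ← Finset.sum_add_distrib,
        ← Finset.sum_sub_distrib]
      refine Finset.sum_congr rfl fun l _ => ?_
      rw [D6_xl_eq]
      ring
    rw [h2, h1]
    simp only [D6_kl_eq, D6_nl_eq, he]
    ring
  rw [hMar] at key
  have h3 : 1 / 1000 * (1 - (759 / 1000) ^ 2) ≤ 1 / 1000 * (1 - e 0) := by linarith
  rw [pe_six]
  linarith

/-- the functional inequality with the cost functional implies the sharp inequality -/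
theorem sharp_six [Fact (2 ≤ 6)]
    (hG : FuncGF (muX 6) 0 0 (51 / 100) (47 / 100) (Cst6 (muX 6))) : Sharp 6 :=
  sharp_of_law (by norm_num) (by rw [pe_six]; norm_num) starC_six
    (r0 := 379 / 500) (r1 := 759 / 1000) (by norm_num) (by norm_num) ovlC_six le_rfl le_rfl
    (by norm_num) (t := 1 / 1000 * (1 - (759 / 1000) ^ 2)) (by norm_num) zero_le_one hG lawIneq_six

end Pool.Agent.ConeG
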