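import Mathlib

/-!
# The sharp cone extension inequality in dimension `6`: the law inequality

For a law `(e l)` of the level energies with `e 0 = ρ ≤ 29/50` and
`ρ ^ (3/5) - ρ ≤ (301/500) ∑_(l ≥ 1) e l * x l + δ` the margin functional of the certificate is at
least `(1 - ρ)/1000 - δ`.
-/

set_option autoImplicit false

namespace Pool.Agent.ConeG.D6

open Finset

/-- `n_l = 1 + 2 l / 5` -/
noncomputable def nl (l : ℕ) : ℝ := 1 + 2 / 5 * l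

/-- `x_l = 1 / n_l` -/
noncomputable def xl (l : ℕ) : ℝ := 1 / nl l

/-- the weight of the costs on the level `l` -/
noncomputable def kl (l : ℕ) : ℝ :=
  387 / 100 * (1 - 112 / 125 * xl l) ^ 2 + (nl l ^ 2 - 1) * (157 / 100) * (1 - 31 / 50 * xl l) ^ 2

/-- `x ^ 2 κ` as a polynomial in `x` -/
noncomputable def Kp (x : ℝ) : ℝ :=
  387 / 100 * x ^ 2 * (1 - 112 / 125 * x) ^ 2 + 157 / 100 * (1 - x ^ 2) * (1 - 31 / 50 * x) ^ 2

/-- the margin functional of a finite law -/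
noncomputable def Mar (n : ℕ) (e : ℕ → ℝ) : ℝ :=
  ∑ l ∈ range n, e l * (51 / 100 + 47 / 100 * xl l - 1 / 5 - 4 / 5 * xl l ^ 2) -
    (13 / 25 * ∑ k ∈ range n, ∑ l ∈ range n, e k * e l * kl l / (4 * (nl k + nl l - 1) ^ 2) +
      63 / 125 * ∑ l ∈ range n, e l * kl l / (4 * (nl l - 1 / 6) ^ 2))

theorem nl_ge (l : ℕ) : 1 ≤ nl l := by
  unfold nl
  have : (0 : ℝ) ≤ l := Nat.cast_nonneg l
  linarith

theorem nl_zero : nl 0 = 1 := by simp [nl]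

theorem xl_zero : xl 0 = 1 := by simp [xl, nl_zero]

theorem kl_zero : kl 0 = 387 / 100 * (13 / 125) ^ 2 := by
  unfold kl
  rw [xl_zero, nl_zero]
  norm_num

theorem nl_succ_ge (l : ℕ) : 7 / 5 ≤ nl (l + 1) := by
  unfold nl
  have : (0 : ℝ) ≤ l := Nat.cast_nonneg l
  push_cast
  linarith

theorem xl_pos (l : ℕ) : 0 < xl l := by
  unfold xl
  exact one_div_pos.2 (by linarith [nl_ge l])

theorem xl_succ_le (l : ℕ) : xl (l + 1) ≤ 5 / 7 := by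
  unfold xl
  rw [div_le_div_iff₀ (by linarith [nl_ge (l + 1)]) (by norm_num)]
  linarith [nl_succ_ge l]

theorem nl_mul_xl (l : ℕ) : nl l * xl l = 1 := by
  unfold xl
  have := nl_ge l
  field_simp

theorem sq_mul_kl (l : ℕ) : xl l ^ 2 * kl l = Kp (xl l) := by
  unfold kl Kp
  have h2 : nl l ^ 2 * xl l ^ 2 = 1 := by
    rw [← mul_pow, nl_mul_xl l, one_pow]
  linear_combination (157 / 100 * (1 - 31 / 50 * xl l) ^ 2) * h2

theorem kl_nonneg (l : ℕ) : 0 ≤ kl l := by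
  unfold kl
  have h := nl_ge l
  have h1 : 0 ≤ nl l ^ 2 - 1 := by nlinarith
  positivity

/-- the expression of the margin on the pair `(0, l)` -/
noncomputable def Qp (ρ μ G x : ℝ) : ℝ :=
  (ρ * (51 / 100 + 47 / 100 - 1) - 13 / 25 * ρ ^ 2 * (387 / 100 * (13 / 125) ^ 2) / 4 -
      63 / 125 * ρ * (387 / 100 * (13 / 125) ^ 2) * (9 / 25) + μ * G) +
    (1 - ρ) * (51 / 100 + 47 / 100 * x - 1 / 5 - 4 / 5 * x ^ 2 -
      13 / 25 * ρ / 4 * (387 / 100 * (13 / 125) ^ 2 * x ^ 2 + Kp x) -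
      13 / 25 * (1 - ρ) * (157 / 100) / 8 - μ * x - 1 / 1000 -
      63 / 125 / 4 * (Kp x * (1 + x / 3 + x ^ 2 / 10)))

theorem piece1_aux {x : ℝ} (h0 : 0 ≤ x) (h1 : x ≤ 5 / 7) :
    0 ≤ Qp (0) (3 / 50) (0) x ∧ 0 ≤ Qp (3 / 20) (3 / 50) (85 / 301) x ∧
      0 ≤ 2 * Qp (3 / 40) (3 / 50) (85 / 602) x - (Qp (0) (3 / 50) (0) x + Qp (3 / 20) (3 / 50) (85 / 301) x) / 2 := by
  have hb : ∀ i j : ℕ, 0 ≤ x ^ i * (5 / 7 - x) ^ j := fun i j =>
    mul_nonneg (pow_nonneg h0 i) (pow_nonneg (by linarith) j)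
  have e0 := hb 0 6
  have e1 := hb 1 5
  have e2 := hb 2 4
  have e3 := hb 3 3
  have e4 := hb 4 2
  have e5 := hb 5 1
  have e6 := hb 6 0
  unfold Qp Kp
  refine ⟨?_, ?_, ?_⟩
  · linarith
  · linarith
  · linarith

theorem piece1 {ρ x : ℝ} (hρ1 : 0 ≤ ρ) (hρ2 : ρ ≤ 3 / 20) (h0 : 0 ≤ x) (h1 : x ≤ 5 / 7) :
    0 ≤ Qp ρ (3 / 50) (0 + 1700 / 903 * (ρ - 0)) x := by
  obtain ⟨a0, a2, a1⟩ := piece1_aux h0 h1
  have b0 := mul_nonneg (sq_nonneg (3 / 20 - ρ)) a0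
  have b1 := mul_nonneg (mul_nonneg (sub_nonneg.2 hρ1) (sub_nonneg.2 hρ2)) a1
  have b2 := mul_nonneg (sq_nonneg (ρ - 0)) a2
  unfold Qp at *
  generalize Kp x = K at *
  linarith [b0, b1, b2]

theorem piece2_aux {x : ℝ} (h0 : 0 ≤ x) (h1 : x ≤ 5 / 7) :
    0 ≤ Qp (3 / 20) (3 / 25) (85 / 301) x ∧ 0 ≤ Qp (2 / 5) (3 / 25) (177 / 602) x ∧
      0 ≤ 2 * Qp (11 / 40) (3 / 25) (347 / 1204) x - (Qp (3 / 20) (3 / 25) (85 / 301) x + Qp (2 / 5) (3 / 25) (177 / 602) x) / 2 := by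
  have hb : ∀ i j : ℕ, 0 ≤ x ^ i * (5 / 7 - x) ^ j := fun i j =>
    mul_nonneg (pow_nonneg h0 i) (pow_nonneg (by linarith) j)
  have e0 := hb 0 6
  have e1 := hb 1 5
  have e2 := hb 2 4
  have e3 := hb 3 3
  have e4 := hb 4 2
  have e5 := hb 5 1
  have e6 := hb 6 0
  unfold Qp Kp
  refine ⟨?_, ?_, ?_⟩
  · linarith
  · linarith
  · linarith

theorem piece2 {ρ x : ℝ} (hρ1 : 3 / 20 ≤ ρ) (hρ2 : ρ ≤ 2 / 5) (h0 : 0 ≤ x) (h1 : x ≤ 5 / 7) :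
    0 ≤ Qp ρ (3 / 25) (85 / 301 + 2 / 43 * (ρ - 3 / 20)) x := by
  obtain ⟨a0, a2, a1⟩ := piece2_aux h0 h1
  have b0 := mul_nonneg (sq_nonneg (2 / 5 - ρ)) a0
  have b1 := mul_nonneg (mul_nonneg (sub_nonneg.2 hρ1) (sub_nonneg.2 hρ2)) a1
  have b2 := mul_nonneg (sq_nonneg (ρ - 3 / 20)) a2
  unfold Qp at *
  generalize Kp x = K at *
  linarith [b0, b1, b2]

theorem piece3_aux {x : ℝ} (h0 : 0 ≤ x) (h1 : x ≤ 5 / 7) :
    0 ≤ Qp (2 / 5) (19 / 100) (177 / 602) x ∧ 0 ≤ Qp (29 / 50) (19 / 100) (1411 / 6020) x ∧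
      0 ≤ 2 * Qp (49 / 100) (19 / 100) (3181 / 12040) x - (Qp (2 / 5) (19 / 100) (177 / 602) x + Qp (29 / 50) (19 / 100) (1411 / 6020) x) / 2 := by
  have hb : ∀ i j : ℕ, 0 ≤ x ^ i * (5 / 7 - x) ^ j := fun i j =>
    mul_nonneg (pow_nonneg h0 i) (pow_nonneg (by linarith) j)
  have e0 := hb 0 6
  have e1 := hb 1 5
  have e2 := hb 2 4
  have e3 := hb 3 3
  have e4 := hb 4 2
  have e5 := hb 5 1
  have e6 := hb 6 0
  unfold Qp Kp
  refine ⟨?_, ?_, ?_⟩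
  · linarith
  · linarith
  · linarith

theorem piece3 {ρ x : ℝ} (hρ1 : 2 / 5 ≤ ρ) (hρ2 : ρ ≤ 29 / 50) (h0 : 0 ≤ x) (h1 : x ≤ 5 / 7) :
    0 ≤ Qp ρ (19 / 100) (177 / 602 + (-(1795 / 5418)) * (ρ - 2 / 5)) x := by
  obtain ⟨a0, a2, a1⟩ := piece3_aux h0 h1
  have b0 := mul_nonneg (sq_nonneg (29 / 50 - ρ)) a0
  have b1 := mul_nonneg (mul_nonneg (sub_nonneg.2 hρ1) (sub_nonneg.2 hρ2)) a1
  have b2 := mul_nonneg (sq_nonneg (ρ - 2 / 5)) a2
  unfold Qp at *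
  generalize Kp x = K at *
  linarith [b0, b1, b2]

/-! ### Chords of `ρ ^ (3/5)` -/

theorem le_rpow {v ρ : ℝ} (hv : 0 ≤ v) (hρ : 0 ≤ ρ) (h : v ^ 5 ≤ ρ ^ 3) : v ≤ ρ ^ ((3 : ℝ) / 5) := by
  have h1 : (ρ ^ ((3 : ℝ) / 5)) ^ 5 = ρ ^ 3 := by
    rw [← Real.rpow_natCast, ← Real.rpow_mul hρ, ← Real.rpow_natCast]
    norm_num
  rw [← h1] at h
  exact (pow_le_pow_iff_left₀ hv (Real.rpow_nonneg hρ _) (by norm_num)).1 h

theorem chord {r1 r2 v1 v2 ρ : ℝ} (h0 : 0 ≤ r1) (h12 : r1 < r2) (hv1 : v1 ≤ r1 ^ ((3 : ℝ) / 5))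
    (hv2 : v2 ≤ r2 ^ ((3 : ℝ) / 5)) (h1 : r1 ≤ ρ) (h2 : ρ ≤ r2) :
    v1 + (v2 - v1) / (r2 - r1) * (ρ - r1) ≤ ρ ^ ((3 : ℝ) / 5) := by
  have hc := Real.concaveOn_rpow (p := 3 / 5) (by norm_num) (by norm_num)
  have hd : 0 < r2 - r1 := by linarith
  set s := (ρ - r1) / (r2 - r1) with hs
  have hs0 : 0 ≤ s := div_nonneg (by linarith) hd.le
  have hs1 : 0 ≤ 1 - s := by
    rw [sub_nonneg, hs, div_le_one hd]
    linarith
  have hρ : (1 - s) * r1 + s * r2 = ρ := by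
    rw [hs]
    field_simp
    ring
  have h := hc.2 (show r1 ∈ Set.Ici (0 : ℝ) from h0) (show r2 ∈ Set.Ici (0 : ℝ) from h0.trans h12.le)
    hs1 hs0 (by ring)
  simp only [smul_eq_mul] at h
  rw [hρ] at h
  refine le_trans ?_ h
  have e1 : (v2 - v1) / (r2 - r1) * (ρ - r1) = s * (v2 - v1) := by
    rw [hs]
    ring
  rw [e1]
  have e2 := mul_le_mul_of_nonneg_left hv1 hs1
  have e3 := mul_le_mul_of_nonneg_left hv2 hs0
  linarith

/-- the three pieces together -/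
theorem exists_mu {ρ : ℝ} (h0 : 0 ≤ ρ) (h1 : ρ ≤ 29 / 50) : ∃ μ G : ℝ, 0 ≤ μ ∧ μ ≤ 1 / 2 ∧
    301 / 500 * G ≤ ρ ^ ((3 : ℝ) / 5) - ρ ∧ ∀ x : ℝ, 0 ≤ x → x ≤ 5 / 7 → 0 ≤ Qp ρ μ G x := by
  have v1 : (32 / 100 : ℝ) ≤ (3 / 20 : ℝ) ^ ((3 : ℝ) / 5) :=
    le_rpow (by norm_num) (by norm_num) (by norm_num)
  have v2 : (577 / 1000 : ℝ) ≤ (2 / 5 : ℝ) ^ ((3 : ℝ) / 5) :=
    le_rpow (by norm_num) (by norm_num) (by norm_num)
  have v3 : (7211 / 10000 : ℝ) ≤ (29 / 50 : ℝ) ^ ((3 : ℝ) / 5) :=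
    le_rpow (by norm_num) (by norm_num) (by norm_num)
  rcases le_or_gt ρ (3 / 20) with ha | ha
  · refine ⟨3 / 50, _, by norm_num, by norm_num, ?_, fun x hx0 hx1 => piece1 h0 ha hx0 hx1⟩
    have := chord (r1 := 0) (r2 := 3 / 20) (v1 := 0) (v2 := 32 / 100) le_rfl (by norm_num)
      (Real.rpow_nonneg le_rfl _) v1 h0 ha
    norm_num at this ⊢
    linarith
  · rcases le_or_gt ρ (2 / 5) with hb | hb
    · refine ⟨3 / 25, _, by norm_num, by norm_num, ?_, fun x hx0 hx1 => piece2 ha.le hb hx0 hx1⟩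
      have := chord (r1 := 3 / 20) (r2 := 2 / 5) (v1 := 32 / 100) (v2 := 577 / 1000) (by norm_num)
        (by norm_num) v1 v2 ha.le hb
      norm_num at this ⊢
      linarith
    · refine ⟨19 / 100, _, by norm_num, by norm_num, ?_, fun x hx0 hx1 => piece3 hb.le h1 hx0 hx1⟩
      have := chord (r1 := 2 / 5) (r2 := 29 / 50) (v1 := 577 / 1000) (v2 := 7211 / 10000) (by norm_num)
        (by norm_num) v2 v3 hb.le h1
      norm_num at this ⊢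
      linarith

/-! ### The sums -/

theorem Kp_le {x : ℝ} (h0 : 0 ≤ x) (h1 : x ≤ 5 / 7) : Kp x ≤ 157 / 100 * (1 - 1 / 2 * x) ^ 2 := by
  have h2 : 0 ≤ 5 / 7 - x := by linarith
  have e1 := mul_nonneg (mul_nonneg h0 (sq_nonneg (x - 27 / 80))) h2
  have e2 := mul_nonneg h0 (sq_nonneg (x - 27 / 80))
  have e3 := mul_nonneg h0 h2
  unfold Kp
  linarith [sq_nonneg x]

theorem kl_le (l : ℕ) : kl (l + 1) ≤ 157 / 100 * (nl (l + 1) - 1 / 2) ^ 2 := by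
  have h := Kp_le (xl_pos (l + 1)).le (xl_succ_le l)
  rw [← sq_mul_kl] at h
  have h1 := nl_mul_xl (l + 1)
  have h2 : nl (l + 1) ^ 2 * xl (l + 1) ^ 2 = 1 := by rw [← mul_pow, h1, one_pow]
  have h3 := mul_le_mul_of_nonneg_left h (sq_nonneg (nl (l + 1)))
  have e1 : nl (l + 1) ^ 2 * (xl (l + 1) ^ 2 * kl (l + 1)) = kl (l + 1) := by
    rw [← mul_assoc, h2, one_mul]
  have e2 : nl (l + 1) ^ 2 * (157 / 100 * (1 - 1 / 2 * xl (l + 1)) ^ 2) =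
      157 / 100 * (nl (l + 1) - 1 / 2) ^ 2 := by
    have : nl (l + 1) * (1 - 1 / 2 * xl (l + 1)) = nl (l + 1) - 1 / 2 := by
      linear_combination -(1 / 2) * h1
    rw [← this]
    ring
  rwa [e1, e2] at h3

theorem double_le (n : ℕ) (w u κ : ℕ → ℝ) (C : ℝ) (hw : ∀ l, 0 ≤ w l) (hu : ∀ l, 0 < u l)
    (hC : 0 ≤ C) (hκ : ∀ l, κ l ≤ C * u l ^ 2) :
    ∑ k ∈ range n, ∑ l ∈ range n, w k * w l * κ l / (4 * (u k + u l) ^ 2) ≤
      C / 8 * (∑ l ∈ range n, w l) ^ 2 := by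
  set T : ℕ → ℕ → ℝ := fun k l => w k * w l * (C * u l ^ 2) / (4 * (u k + u l) ^ 2) with hT
  have h1 : ∑ k ∈ range n, ∑ l ∈ range n, w k * w l * κ l / (4 * (u k + u l) ^ 2) ≤
      ∑ k ∈ range n, ∑ l ∈ range n, T k l := by
    refine sum_le_sum fun k _ => sum_le_sum fun l _ => ?_
    have hp : 0 < 4 * (u k + u l) ^ 2 := by
      have := hu k
      have := hu l
      positivity
    refine div_le_div_of_nonneg_right ?_ hp.le
    exact mul_le_mul_of_nonneg_left (hκ l) (mul_nonneg (hw k) (hw l))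
  have h2 : ∑ k ∈ range n, ∑ l ∈ range n, T k l = ∑ k ∈ range n, ∑ l ∈ range n, T l k := sum_comm
  have h3 : ∑ k ∈ range n, ∑ l ∈ range n, (T k l + T l k) ≤
      ∑ k ∈ range n, ∑ l ∈ range n, C / 4 * (w k * w l) := by
    refine sum_le_sum fun k _ => sum_le_sum fun l _ => ?_
    have hk := hu k
    have hl := hu l
    have hp : 0 < 4 * (u k + u l) ^ 2 := by positivity
    have e : T k l + T l k = w k * w l * (C * (u l ^ 2 + u k ^ 2)) / (4 * (u k + u l) ^ 2) := by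
      simp only [hT]
      rw [add_comm (u l) (u k)]
      ring
    rw [e, div_le_iff₀ hp]
    have hww := mul_nonneg (hw k) (hw l)
    have h4 : C * (u l ^ 2 + u k ^ 2) ≤ C * (u k + u l) ^ 2 :=
      mul_le_mul_of_nonneg_left (by nlinarith [mul_pos hk hl]) hC
    have h5 := mul_le_mul_of_nonneg_left h4 hww
    linarith
  have h4 : ∑ k ∈ range n, ∑ l ∈ range n, C / 4 * (w k * w l) = C / 4 * (∑ l ∈ range n, w l) ^ 2 := by
    rw [pow_two, sum_mul_sum, mul_sum]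
    refine sum_congr rfl fun k _ => ?_
    rw [mul_sum]
  simp only [sum_add_distrib] at h3
  linarith

theorem single_le (l : ℕ) : kl (l + 1) / (4 * (nl (l + 1) - 1 / 6) ^ 2) ≤
    Kp (xl (l + 1)) * (1 + xl (l + 1) / 3 + xl (l + 1) ^ 2 / 10) / 4 := by
  set x := xl (l + 1) with hx
  have h0 : 0 < x := xl_pos _
  have h1 : x ≤ 5 / 7 := xl_succ_le l
  have hn : nl (l + 1) * x = 1 := nl_mul_xl _
  have hnl := nl_succ_ge l
  have hk := kl_nonneg (l + 1)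
  rw [← sq_mul_kl, ← hx]
  have hp : 0 < 4 * (nl (l + 1) - 1 / 6) ^ 2 := by
    have : 0 < nl (l + 1) - 1 / 6 := by linarith
    positivity
  rw [div_le_iff₀ hp]
  have e : x ^ 2 * (nl (l + 1) - 1 / 6) ^ 2 = (1 - x / 6) ^ 2 := by
    have : x * (nl (l + 1) - 1 / 6) = 1 - x / 6 := by linear_combination hn
    rw [← this]
    ring
  have e2 : x ^ 2 * kl (l + 1) * (1 + x / 3 + x ^ 2 / 10) / 4 * (4 * (nl (l + 1) - 1 / 6) ^ 2) =
      kl (l + 1) * ((1 - x / 6) ^ 2 * (1 + x / 3 + x ^ 2 / 10)) := by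
    rw [← e]
    ring
  rw [e2]
  have h3 : 1 ≤ (1 - x / 6) ^ 2 * (1 + x / 3 + x ^ 2 / 10) := by
    nlinarith [mul_nonneg (sq_nonneg x) (sub_nonneg.2 h1), sq_nonneg (x ^ 2), sq_nonneg x,
      mul_nonneg (mul_nonneg (sq_nonneg x) (sub_nonneg.2 h1)) (sub_nonneg.2 h1)]
  nlinarith [mul_nonneg hk (sub_nonneg.2 h3)]

theorem zero_term (l : ℕ) (c : ℝ) : c / (4 * (nl 0 + nl (l + 1) - 1) ^ 2) =
    c * xl (l + 1) ^ 2 / 4 := by
  have h := nl_succ_ge l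
  have h1 := nl_mul_xl (l + 1)
  have hp : (4 : ℝ) * (nl (l + 1)) ^ 2 ≠ 0 := by positivity
  rw [nl_zero, add_sub_cancel_left, div_eq_iff hp]
  have h2 : nl (l + 1) ^ 2 * xl (l + 1) ^ 2 = 1 := by rw [← mul_pow, h1, one_pow]
  linear_combination -c * h2

theorem zero_term' (l : ℕ) (c : ℝ) : c / (4 * (nl (l + 1) + nl 0 - 1) ^ 2) =
    c * xl (l + 1) ^ 2 / 4 := by
  rw [add_comm (nl (l + 1)), zero_term]

/-- LAW INEQUALITY -/
theorem law6 (n : ℕ) (e : ℕ → ℝ) (he : ∀ l, 0 ≤ e l) (hs : ∑ l ∈ range (n + 1), e l = 1)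
    (hρ : e 0 ≤ 29 / 50) (δ : ℝ) (hδ : 0 ≤ δ)
    (hst : e 0 ^ ((3 : ℝ) / 5) - e 0 ≤ 301 / 500 * ∑ l ∈ range n, e (l + 1) * xl (l + 1) + δ) :
    1 / 1000 * (1 - e 0) - δ ≤ Mar (n + 1) e := by
  obtain ⟨μ, G, hμ0, hμ1, hG, hQ⟩ := exists_mu (he 0) hρ
  set ρ := e 0 with hρd
  set w : ℕ → ℝ := fun l => e (l + 1) with hw
  set x : ℕ → ℝ := fun l => xl (l + 1) with hx
  have hw0 : ∀ l, 0 ≤ w l := fun l => he _
  have hsw : ∑ l ∈ range n, w l = 1 - ρ := by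
    rw [sum_range_succ'] at hs
    linarith
  -- the double sum
  have hdd : ∑ k ∈ range (n + 1), ∑ l ∈ range (n + 1), e k * e l * kl l / (4 * (nl k + nl l - 1) ^ 2) ≤
      157 / 100 / 8 * (1 - ρ) ^ 2 + ∑ l ∈ range n, w l * (ρ * (387 / 100 * (13 / 125) ^ 2) * x l ^ 2 / 4) +
        ∑ l ∈ range n, w l * (ρ * Kp (x l) / 4) + ρ ^ 2 * (387 / 100 * (13 / 125) ^ 2) / 4 := by
    rw [sum_range_succ']
    simp only [sum_range_succ' _ n]
    rw [sum_add_distrib]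
    have e1 : ∑ k ∈ range n, ∑ l ∈ range n,
        e (k + 1) * e (l + 1) * kl (l + 1) / (4 * (nl (k + 1) + nl (l + 1) - 1) ^ 2) ≤
        157 / 100 / 8 * (1 - ρ) ^ 2 := by
      rw [← hsw]
      have := double_le n w (fun l => nl (l + 1) - 1 / 2) (fun l => kl (l + 1)) (157 / 100) hw0
        (fun l => by have := nl_succ_ge l; linarith) (by norm_num) kl_le
      refine le_trans (le_of_eq ?_) this
      refine sum_congr rfl fun k _ => sum_congr rfl fun l _ => ?_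
      rw [show nl (k + 1) - 1 / 2 + (nl (l + 1) - 1 / 2) = nl (k + 1) + nl (l + 1) - 1 by ring]
    have e2 : ∑ k ∈ range n, e (k + 1) * e 0 * kl 0 / (4 * (nl (k + 1) + nl 0 - 1) ^ 2) =
        ∑ l ∈ range n, w l * (ρ * (387 / 100 * (13 / 125) ^ 2) * x l ^ 2 / 4) := by
      refine sum_congr rfl fun k _ => ?_
      rw [zero_term', kl_zero]
      ring
    have e3 : ∑ l ∈ range n, e 0 * e (l + 1) * kl (l + 1) / (4 * (nl 0 + nl (l + 1) - 1) ^ 2) =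
        ∑ l ∈ range n, w l * (ρ * Kp (x l) / 4) := by
      refine sum_congr rfl fun l _ => ?_
      rw [zero_term, ← sq_mul_kl]
      ring
    have e4 : e 0 * e 0 * kl 0 / (4 * (nl 0 + nl 0 - 1) ^ 2) =
        ρ ^ 2 * (387 / 100 * (13 / 125) ^ 2) / 4 := by
      rw [kl_zero, nl_zero]
      ring
    rw [e2, e3, e4]
    linarith
  -- the single sum
  have hss : ∑ l ∈ range (n + 1), e l * kl l / (4 * (nl l - 1 / 6) ^ 2) ≤
      ∑ l ∈ range n, w l * (Kp (x l) * (1 + x l / 3 + x l ^ 2 / 10) / 4) +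
        ρ * (387 / 100 * (13 / 125) ^ 2) * (9 / 25) := by
    rw [sum_range_succ']
    have e1 : ∑ l ∈ range n, e (l + 1) * kl (l + 1) / (4 * (nl (l + 1) - 1 / 6) ^ 2) ≤
        ∑ l ∈ range n, w l * (Kp (x l) * (1 + x l / 3 + x l ^ 2 / 10) / 4) := by
      refine sum_le_sum fun l _ => ?_
      rw [mul_div_assoc]
      exact mul_le_mul_of_nonneg_left (single_le l) (hw0 l)
    have e2 : e 0 * kl 0 / (4 * (nl 0 - 1 / 6) ^ 2) = ρ * (387 / 100 * (13 / 125) ^ 2) * (9 / 25) := by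
      rw [kl_zero, nl_zero]
      ring
    rw [e2]
    linarith
  -- the main sum
  have hmm : ∑ l ∈ range (n + 1), e l * (51 / 100 + 47 / 100 * xl l - 1 / 5 - 4 / 5 * xl l ^ 2) =
      ∑ l ∈ range n, w l * (51 / 100 + 47 / 100 * x l - 1 / 5 - 4 / 5 * x l ^ 2) +
        ρ * (51 / 100 + 47 / 100 - 1) := by
    rw [sum_range_succ', xl_zero]
    ring
  -- the star inequality
  have hst' : G ≤ ∑ l ∈ range n, w l * x l + 500 / 301 * δ := by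
    have : 301 / 500 * G ≤ 301 / 500 * ∑ l ∈ range n, w l * x l + δ := hG.trans hst
    linarith
  -- the levels
  have hlev : 0 ≤ ∑ l ∈ range n, w l * Qp ρ μ G (x l) :=
    sum_nonneg fun l _ => mul_nonneg (hw0 l) (hQ _ (xl_pos _).le (xl_succ_le l))
  set al := ρ * (51 / 100 + 47 / 100 - 1) - 13 / 25 * ρ ^ 2 * (387 / 100 * (13 / 125) ^ 2) / 4 -
      63 / 125 * ρ * (387 / 100 * (13 / 125) ^ 2) * (9 / 25) + μ * G with hal
  set Inn : ℕ → ℝ := fun l => 51 / 100 + 47 / 100 * x l - 1 / 5 - 4 / 5 * x l ^ 2 -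
      13 / 25 * ρ / 4 * (387 / 100 * (13 / 125) ^ 2 * x l ^ 2 + Kp (x l)) -
      13 / 25 * (1 - ρ) * (157 / 100) / 8 - μ * x l - 1 / 1000 -
      63 / 125 / 4 * (Kp (x l) * (1 + x l / 3 + x l ^ 2 / 10)) with hInn
  have hQe : ∑ l ∈ range n, w l * Qp ρ μ G (x l) = (1 - ρ) * (al + ∑ l ∈ range n, w l * Inn l) := by
    have : ∀ l, w l * Qp ρ μ G (x l) = al * w l + (1 - ρ) * (w l * Inn l) := by
      intro l
      simp only [Qp, hal, hInn]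
      ring
    rw [sum_congr rfl fun l _ => this l, sum_add_distrib, ← mul_sum, ← mul_sum, hsw]
    ring
  rw [hQe] at hlev
  have hlev' : 0 ≤ al + ∑ l ∈ range n, w l * Inn l :=
    nonneg_of_mul_nonneg_right hlev (by linarith)
  have hInne : ∑ l ∈ range n, w l * Inn l =
      ∑ l ∈ range n, w l * (51 / 100 + 47 / 100 * x l - 1 / 5 - 4 / 5 * x l ^ 2) -
      13 / 25 * (∑ l ∈ range n, w l * (ρ * (387 / 100 * (13 / 125) ^ 2) * x l ^ 2 / 4) +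
        ∑ l ∈ range n, w l * (ρ * Kp (x l) / 4)) -
      (13 / 25 * (1 - ρ) * (157 / 100) / 8 + 1 / 1000) * (1 - ρ) - μ * ∑ l ∈ range n, w l * x l -
      63 / 125 * ∑ l ∈ range n, w l * (Kp (x l) * (1 + x l / 3 + x l ^ 2 / 10) / 4) := by
    have h1 : (13 / 25 * (1 - ρ) * (157 / 100) / 8 + 1 / 1000) * (1 - ρ) =
        ∑ l ∈ range n, w l * (13 / 25 * (1 - ρ) * (157 / 100) / 8 + 1 / 1000) := by
      rw [← sum_mul, hsw]
      ring
    rw [h1, ← sum_add_distrib, mul_sum, mul_sum, mul_sum, ← sum_sub_distrib, ← sum_sub_distrib,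
      ← sum_sub_distrib, ← sum_sub_distrib]
    refine sum_congr rfl fun l _ => ?_
    simp only [hInn]
    ring
  have hμG : μ * G ≤ μ * (∑ l ∈ range n, w l * x l) + δ := by
    have h1 := mul_le_mul_of_nonneg_left hst' hμ0
    have h2 : μ * (500 / 301 * δ) ≤ δ := by nlinarith
    nlinarith
  unfold Mar
  rw [hmm]
  rw [hInne] at hlev'
  have hal' : al = ρ * (51 / 100 + 47 / 100 - 1) - 13 / 25 * (ρ ^ 2 * (387 / 100 * (13 / 125) ^ 2) / 4) -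
      63 / 125 * (ρ * (387 / 100 * (13 / 125) ^ 2) * (9 / 25)) + μ * G := by
    rw [hal]
    ring
  rw [hal'] at hlev'
  have h4 : (13 / 25 * (1 - ρ) * (157 / 100) / 8 + 1 / 1000) * (1 - ρ) =
      13 / 25 * (157 / 100 / 8 * (1 - ρ) ^ 2) + 1 / 1000 * (1 - ρ) := by ring
  rw [h4] at hlev'
  linarith

end Pool.Agent.ConeG.D6
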